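import Mathlib

/-! Sums over the critical points of a polynomial. -/

set_option autoImplicit false

open Polynomial

noncomputable section

namespace Pool.Agent.R552.PM

/-- the monic polynomial with given roots -/
def P (W : Multiset ℂ) : ℂ[X] := (W.map (fun w => X - C w)).prod

/-- `∑ 1/(a-w)` -/
def S1 (a : ℂ) (W : Multiset ℂ) : ℂ := (W.map (fun w => (a - w)⁻¹)).sum

/-- `∑ 1/(a-w)²` -/
def S2 (a : ℂ) (W : Multiset ℂ) : ℂ := (W.map (fun w => ((a - w)⁻¹) ^ 2)).sum

lemma P_cons (w : ℂ) (W : Multiset ℂ) : P (w ::ₘ W) = (X - C w) * P W := by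
  simp [P]

lemma eval_P (a : ℂ) (W : Multiset ℂ) : (P W).eval a = (W.map (fun w => a - w)).prod := by
  induction W using Multiset.induction_on with
  | empty => simp [P]
  | cons w W ih => rw [P_cons]; simp [ih]

lemma eval_P_ne {a : ℂ} {W : Multiset ℂ} (h : a ∉ W) : (P W).eval a ≠ 0 := by
  rw [eval_P]
  intro h0
  rw [Multiset.prod_eq_zero_iff, Multiset.mem_map] at h0
  obtain ⟨w, hw, h1⟩ := h0
  rw [sub_eq_zero] at h1
  exact h (h1 ▸ hw)

lemma der1 {a : ℂ} {W : Multiset ℂ} (h : a ∉ W) :
    (derivative (P W)).eval a = (P W).eval a * S1 a W := by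
  induction W using Multiset.induction_on with
  | empty => simp [P, S1]
  | cons w W ih =>
    rw [Multiset.mem_cons, not_or] at h
    have h1 : a - w ≠ 0 := sub_ne_zero.2 h.1
    rw [P_cons, derivative_mul, eval_add, eval_mul, eval_mul, ih h.2, eval_mul]
    have h2 : S1 a (w ::ₘ W) = (a - w)⁻¹ + S1 a W := by simp [S1]
    rw [h2]
    simp only [derivative_sub, derivative_X, derivative_C, sub_zero, eval_one, eval_sub, eval_X,
      eval_C, one_mul]
    field_simp

lemma der2 {a : ℂ} {W : Multiset ℂ} (h : a ∉ W) :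
    (derivative (derivative (P W))).eval a = (P W).eval a * ((S1 a W) ^ 2 - S2 a W) := by
  induction W using Multiset.induction_on with
  | empty => simp [P, S1, S2]
  | cons w W ih =>
    rw [Multiset.mem_cons, not_or] at h
    have h1 : a - w ≠ 0 := sub_ne_zero.2 h.1
    have h2 : S1 a (w ::ₘ W) = (a - w)⁻¹ + S1 a W := by simp [S1]
    have h3 : S2 a (w ::ₘ W) = ((a - w)⁻¹) ^ 2 + S2 a W := by simp [S2]
    have h4 : derivative (derivative ((X - C w) * P W)) =
        2 * derivative (P W) + (X - C w) * derivative (derivative (P W)) := by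
      rw [derivative_mul, derivative_add, derivative_mul, derivative_mul]
      simp only [derivative_sub, derivative_X, derivative_C, sub_zero, derivative_one]
      ring
    rw [P_cons, h4, eval_add, eval_mul, eval_mul, ih h.2, der1 h.2, eval_mul, h2, h3]
    simp only [eval_sub, eval_X, eval_C, eval_ofNat]
    field_simp
    ring

/-- relations between the zeros of `q` and the critical points of `(X - a) q` -/
theorem crit_rel {a : ℂ} {Z : Multiset ℂ} (ha : a ∉ Z)
    (hr : a ∉ (derivative ((X - C a) * P Z)).roots) :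
    let W := (derivative ((X - C a) * P Z)).roots
    Multiset.card W = Multiset.card Z ∧
      S1 a W = 2 * S1 a Z ∧ S2 a W = S1 a Z ^ 2 + 3 * S2 a Z ∧
      (Z.map (fun w => a - w)).prod = (Multiset.card Z + 1 : ℂ) * (W.map (fun w => a - w)).prod := by
  intro W
  set m := Multiset.card Z with hm
  have hmon : (P Z).Monic := monic_multiset_prod_of_monic _ _ fun w _ => monic_X_sub_C w
  have hdeg : (P Z).natDegree = m := by
    rw [P, natDegree_multiset_prod_X_sub_C_eq_card]
  have hp : ((X - C a) * P Z).Monic := (monic_X_sub_C a).mul hmon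
  have hpd : ((X - C a) * P Z).natDegree = m + 1 := by
    rw [(monic_X_sub_C a).natDegree_mul hmon, natDegree_X_sub_C, hdeg, add_comm]
  set p' := derivative ((X - C a) * P Z) with hp'
  have hd' : p'.natDegree = m := by
    rw [hp', natDegree_derivative, hpd]
    omega
  have hlc : p'.leadingCoeff = (m + 1 : ℂ) := by
    rw [leadingCoeff, hd', hp', coeff_derivative]
    have : ((X - C a) * P Z).coeff (m + 1) = 1 := by
      rw [← hpd]; exact hp
    rw [this, one_mul]
  have hsp : p'.Splits := IsAlgClosed.splits p'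
  have hcard : Multiset.card W = m := by
    rw [← hd']
    exact hsp.natDegree_eq_card_roots.symm
  have hfac : p' = C (m + 1 : ℂ) * P W := by
    have h1 := hsp.eq_prod_roots
    rw [hlc] at h1
    exact h1
  have hm0 : (m + 1 : ℂ) ≠ 0 := by
    have : ((m + 1 : ℕ) : ℂ) ≠ 0 := Nat.cast_ne_zero.2 (by omega)
    simpa using this
  -- derivatives at `a`
  have e0 : p' = P Z + (X - C a) * derivative (P Z) := by
    rw [hp', derivative_mul]
    simp
  have e1 : derivative p' = 2 * derivative (P Z) + (X - C a) * derivative (derivative (P Z)) := by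
    rw [e0, derivative_add, derivative_mul]
    simp only [derivative_sub, derivative_X, derivative_C, sub_zero]
    ring
  have e2 : derivative (derivative p') = 3 * derivative (derivative (P Z)) +
      (X - C a) * derivative (derivative (derivative (P Z))) := by
    rw [e1, derivative_add, derivative_mul, derivative_mul]
    simp only [derivative_sub, derivative_X, derivative_C, sub_zero, derivative_ofNat]
    ring
  have v0 : p'.eval a = (P Z).eval a := by rw [e0]; simp
  have v1 : (derivative p').eval a = 2 * (derivative (P Z)).eval a := by rw [e1]; simp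
  have v2 : (derivative (derivative p')).eval a = 3 * (derivative (derivative (P Z))).eval a := by
    rw [e2]; simp
  have w0 : p'.eval a = (m + 1 : ℂ) * (P W).eval a := by
    conv_lhs => rw [hfac]
    simp
  have w1 : (derivative p').eval a = (m + 1 : ℂ) * (derivative (P W)).eval a := by
    conv_lhs => rw [hfac]
    simp
  have w2 : (derivative (derivative p')).eval a =
      (m + 1 : ℂ) * (derivative (derivative (P W))).eval a := by
    conv_lhs => rw [hfac]
    simp
  have hq0 : (P Z).eval a ≠ 0 := eval_P_ne ha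
  have hW0 : (P W).eval a ≠ 0 := eval_P_ne hr
  have r0 : (P Z).eval a = (m + 1 : ℂ) * (P W).eval a := by rw [← v0, w0]
  have r1 : 2 * ((P Z).eval a * S1 a Z) = (m + 1 : ℂ) * ((P W).eval a * S1 a W) := by
    rw [← der1 ha, ← der1 hr, ← v1, w1]
  have r2 : 3 * ((P Z).eval a * (S1 a Z ^ 2 - S2 a Z)) =
      (m + 1 : ℂ) * ((P W).eval a * (S1 a W ^ 2 - S2 a W)) := by
    rw [← der2 ha, ← der2 hr, ← v2, w2]
  have t1 : S1 a W = 2 * S1 a Z := by
    have h1 : (P Z).eval a * S1 a W = (P Z).eval a * (2 * S1 a Z) := by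
      calc (P Z).eval a * S1 a W = (m + 1 : ℂ) * ((P W).eval a * S1 a W) := by rw [r0]; ring
        _ = 2 * ((P Z).eval a * S1 a Z) := r1.symm
        _ = _ := by ring
    exact mul_left_cancel₀ hq0 h1
  have t2 : S2 a W = S1 a Z ^ 2 + 3 * S2 a Z := by
    have h1 : (P Z).eval a * (S1 a W ^ 2 - S2 a W) =
        (P Z).eval a * (3 * (S1 a Z ^ 2 - S2 a Z)) := by
      calc (P Z).eval a * (S1 a W ^ 2 - S2 a W) =
          (m + 1 : ℂ) * ((P W).eval a * (S1 a W ^ 2 - S2 a W)) := by rw [r0]; ring
        _ = 3 * ((P Z).eval a * (S1 a Z ^ 2 - S2 a Z)) := r2.symm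
        _ = _ := by ring
    have h2 := mul_left_cancel₀ hq0 h1
    rw [t1] at h2
    linear_combination -h2
  refine ⟨hcard, t1, t2, ?_⟩
  rw [← eval_P, ← eval_P]
  exact r0

end Pool.Agent.R552.PM
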