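import Mathlib
import Pool.Agent.R552.PM.Alg

/-! Inequalities for the sums over the critical points. -/

set_option autoImplicit false
set_option maxHeartbeats 400000

open Polynomial ComplexConjugate

noncomputable section

namespace Pool.Agent.R552.PM

/-- `∑ |w-a|⁻²` -/
def A2 (a : ℂ) (W : Multiset ℂ) : ℝ := (W.map (fun w => (‖w - a‖ ^ 2)⁻¹)).sum

lemma term_eq (a w : ℂ) : (‖w - a‖ ^ 2)⁻¹ = ‖(a - w)⁻¹‖ ^ 2 := by
  rw [norm_inv, inv_pow, norm_sub_rev]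

lemma key (a μ : ℂ) (W : Multiset ℂ) :
    ‖S2 a W - 2 * μ * S1 a W + (Multiset.card W : ℂ) * μ ^ 2‖ ≤
      A2 a W - 2 * (conj μ * S1 a W).re + (Multiset.card W : ℝ) * ‖μ‖ ^ 2 := by
  induction W using Multiset.induction_on with
  | empty => simp [S1, S2, A2]
  | cons w W ih =>
    set x := (a - w)⁻¹ with hx
    have h1 : S1 a (w ::ₘ W) = x + S1 a W := by simp [S1, hx]
    have h2 : S2 a (w ::ₘ W) = x ^ 2 + S2 a W := by simp [S2, hx]
    have h3 : A2 a (w ::ₘ W) = ‖x‖ ^ 2 + A2 a W := by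
      simp only [A2, Multiset.map_cons, Multiset.sum_cons, term_eq, hx]
    rw [h1, h2, h3, Multiset.card_cons]
    push_cast
    have e1 : x ^ 2 + S2 a W - 2 * μ * (x + S1 a W) + ((Multiset.card W : ℂ) + 1) * μ ^ 2 =
        (x - μ) ^ 2 + (S2 a W - 2 * μ * S1 a W + (Multiset.card W : ℂ) * μ ^ 2) := by ring
    rw [e1]
    refine (norm_add_le _ _).trans ?_
    have e2 : ‖(x - μ) ^ 2‖ = ‖x‖ ^ 2 - 2 * (conj μ * x).re + ‖μ‖ ^ 2 := by
      rw [norm_pow, ← Complex.normSq_eq_norm_sq, ← Complex.normSq_eq_norm_sq,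
        ← Complex.normSq_eq_norm_sq, Complex.normSq_sub]
      have : (x * conj μ).re = (conj μ * x).re := by rw [mul_comm]
      rw [this]
      ring
    rw [e2]
    have e3 : (conj μ * (x + S1 a W)).re = (conj μ * x).re + (conj μ * S1 a W).re := by
      rw [mul_add, Complex.add_re]
    rw [e3]
    linarith

/-- arithmetic and geometric mean -/
lemma amgm {a : ℂ} {W : Multiset ℂ} (h : a ∉ W) :
    (Multiset.card W : ℝ) - 2 * Real.log ‖(W.map (fun w => a - w)).prod‖ ≤ A2 a W := by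
  induction W using Multiset.induction_on with
  | empty => simp [A2]
  | cons w W ih =>
    rw [Multiset.mem_cons, not_or] at h
    have h1 : a - w ≠ 0 := sub_ne_zero.2 h.1
    have h3 : A2 a (w ::ₘ W) = (‖w - a‖ ^ 2)⁻¹ + A2 a W := by
      simp only [A2, Multiset.map_cons, Multiset.sum_cons]
    have hP : (W.map (fun w => a - w)).prod ≠ 0 := by
      rw [← eval_P]; exact eval_P_ne h.2
    rw [h3, Multiset.card_cons, Multiset.map_cons, Multiset.prod_cons, norm_mul,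
      Real.log_mul (norm_ne_zero_iff.2 h1) (norm_ne_zero_iff.2 hP)]
    have h4 := ih h.2
    have h5 : 0 < (‖w - a‖ ^ 2)⁻¹ := by
      have : 0 < ‖w - a‖ := norm_pos_iff.2 (sub_ne_zero.2 (fun e => h.1 e.symm))
      positivity
    have h6 := Real.log_le_sub_one_of_pos h5
    rw [Real.log_inv, Real.log_pow] at h6
    have h7 : ‖w - a‖ = ‖a - w‖ := norm_sub_rev _ _
    rw [h7] at h6 ⊢
    push_cast at h6 ⊢
    linarith

lemma amgm1 {a : ℂ} {W : Multiset ℂ} (h : a ∉ W) (h1 : ‖(W.map (fun w => a - w)).prod‖ ≤ 1) :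
    (Multiset.card W : ℝ) ≤ A2 a W := by
  have h2 := amgm h
  have h3 : Real.log ‖(W.map (fun w => a - w)).prod‖ ≤ 0 := Real.log_nonpos (norm_nonneg _) h1
  linarith

lemma second (a : ℂ) (W : Multiset ℂ) : ‖S2 a W‖ ≤ A2 a W := by
  have := key a 0 W
  simpa using this

lemma first {a : ℂ} {W : Multiset ℂ} (hm : 0 < Multiset.card W)
    (h : (Multiset.card W : ℝ) ≤ ‖S1 a W‖) : (Multiset.card W : ℝ) ≤ A2 a W := by
  set m := Multiset.card W with hmd
  have hm0 : (0 : ℝ) < m := by exact_mod_cast hm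
  have h1 := key a (S1 a W / m) W
  have h2 := (norm_nonneg _).trans h1
  have h3 : (conj (S1 a W / m) * S1 a W).re = ‖S1 a W‖ ^ 2 / m := by
    rw [map_div₀, Complex.conj_natCast, div_mul_eq_mul_div, ← Complex.normSq_eq_conj_mul_self,
      Complex.normSq_eq_norm_sq]
    rw [show ((‖S1 a W‖ ^ 2 : ℝ) : ℂ) / (m : ℂ) = ((‖S1 a W‖ ^ 2 / m : ℝ) : ℂ) by push_cast; rfl]
    exact Complex.ofReal_re _
  have h4 : ‖S1 a W / m‖ ^ 2 = ‖S1 a W‖ ^ 2 / m ^ 2 := by
    rw [norm_div, div_pow]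
    simp
  rw [h3, h4] at h2
  have h5 : (m : ℝ) * (‖S1 a W‖ ^ 2 / m ^ 2) = ‖S1 a W‖ ^ 2 / m := by field_simp
  rw [h5] at h2
  have h6 : ‖S1 a W‖ ^ 2 / m ≤ A2 a W := by linarith
  have h7 : (m : ℝ) ≤ ‖S1 a W‖ ^ 2 / m := by
    rw [le_div_iff₀ hm0]
    nlinarith
  linarith

lemma four {a : ℂ} {W : Multiset ℂ} (hm : Multiset.card W = 4) :
    ‖S1 a W / 2‖ ^ 2 + ‖S2 a W - (S1 a W / 2) ^ 2‖ ≤ A2 a W := by
  have h1 := key a (S1 a W / 4) W
  rw [hm] at h1
  have h3 : (conj (S1 a W / 4) * S1 a W).re = ‖S1 a W‖ ^ 2 / 4 := by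
    rw [map_div₀, div_mul_eq_mul_div, ← Complex.normSq_eq_conj_mul_self,
      Complex.normSq_eq_norm_sq]
    have h4 : (conj (4 : ℂ)) = ((4 : ℝ) : ℂ) := by
      rw [show (4 : ℂ) = ((4 : ℝ) : ℂ) by norm_num, Complex.conj_ofReal]
    rw [h4, ← Complex.ofReal_div]
    exact Complex.ofReal_re _
  have h4 : ‖S1 a W / 4‖ ^ 2 = ‖S1 a W‖ ^ 2 / 16 := by
    rw [norm_div, div_pow]
    norm_num
  have h5 : ‖S1 a W / 2‖ ^ 2 = ‖S1 a W‖ ^ 2 / 4 := by
    rw [norm_div, div_pow]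
    norm_num
  rw [h3, h4] at h1
  have h6 : S2 a W - 2 * (S1 a W / 4) * S1 a W + ((4 : ℕ) : ℂ) * (S1 a W / 4) ^ 2 =
      S2 a W - (S1 a W / 2) ^ 2 := by
    push_cast
    ring
  rw [h6] at h1
  rw [h5]
  push_cast at h1
  linarith

end Pool.Agent.R552.PM
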