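import Mathlib

/-! Real inequalities. -/

set_option autoImplicit false
set_option maxHeartbeats 1000000

noncomputable section

namespace Pool.Agent.R552.PM

lemma sq2 {x y : ℝ} (hx : 1 ≤ x) (hy : 1 ≤ y) : x ^ 2 + y ^ 2 ≤ 1 + (x * y) ^ 2 := by
  have h1 : 1 ≤ x ^ 2 := by nlinarith
  have h2 : 1 ≤ y ^ 2 := by nlinarith
  nlinarith [mul_nonneg (sub_nonneg.2 h1) (sub_nonneg.2 h2)]

lemma real2 {a r1 r2 c1 c2 : ℝ} (ha0 : 0 ≤ a) (ha1 : a ≤ 1)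
    (h1 : 1 ≤ (1 - a ^ 2) * r1 ^ 2 + 2 * a * c1) (h2 : 1 ≤ (1 - a ^ 2) * r2 ^ 2 + 2 * a * c2)
    (k1 : 1 ≤ (1 + a) * r1) (k2 : 1 ≤ (1 + a) * r2)
    (hp : 3 * (r1 * r2) < 1) : 1 ≤ c1 + c2 := by
  set y := 1 + a with hy
  have hy1 : 1 ≤ y := by linarith
  have hy2 : y ≤ 2 := by linarith
  have e1 : 1 ≤ (y * r1) * (y * r2) := by nlinarith
  have e2 : 3 < y ^ 2 := by
    have : (y * r1) * (y * r2) = y ^ 2 * (r1 * r2) := by ring
    rw [this] at e1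
    nlinarith [sq_nonneg y]
  have e3 : 17 / 10 < y := by nlinarith
  have e4 := sq2 k1 k2
  have e5 : (y * r1) * (y * r2) ≤ y ^ 2 / 3 := by
    have : (y * r1) * (y * r2) = y ^ 2 * (r1 * r2) := by ring
    rw [this]
    nlinarith [sq_nonneg y]
  have e6 : y ^ 2 / 3 ≤ 4 / 3 := by nlinarith
  have e7 : ((y * r1) * (y * r2)) ^ 2 ≤ (4 / 3) ^ 2 := by
    apply pow_le_pow_left₀ (by linarith)
    linarith
  have e8 : y ^ 2 * (r1 ^ 2 + r2 ^ 2) ≤ 2 * y := by nlinarith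
  have e9 : y * (r1 ^ 2 + r2 ^ 2) ≤ 2 := by
    have : y * (y * (r1 ^ 2 + r2 ^ 2)) ≤ y * 2 := by nlinarith
    exact le_of_mul_le_mul_left this (by linarith)
  have ea : 0 < a := by linarith
  have e10 : (1 - a) * (y * (r1 ^ 2 + r2 ^ 2)) ≤ (1 - a) * 2 :=
    mul_le_mul_of_nonneg_left e9 (by linarith)
  have e11 : (1 - a ^ 2) * r1 ^ 2 + (1 - a ^ 2) * r2 ^ 2 = (1 - a) * (y * (r1 ^ 2 + r2 ^ 2)) := by
    rw [hy]; ring
  have e12 : a * 1 ≤ a * (c1 + c2) := by nlinarith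
  exact le_of_mul_le_mul_left e12 ea

lemma real3 {a r1 r2 r3 c1 c2 c3 : ℝ} (ha0 : 0 ≤ a) (ha1 : a ≤ 1)
    (h1 : 1 ≤ (1 - a ^ 2) * r1 ^ 2 + 2 * a * c1) (h2 : 1 ≤ (1 - a ^ 2) * r2 ^ 2 + 2 * a * c2)
    (h3 : 1 ≤ (1 - a ^ 2) * r3 ^ 2 + 2 * a * c3)
    (k1 : 1 ≤ (1 + a) * r1) (k2 : 1 ≤ (1 + a) * r2) (k3 : 1 ≤ (1 + a) * r3)
    (hp : 4 * (r1 * r2 * r3) < 1) : 3 / 2 ≤ c1 + c2 + c3 := by
  set y := 1 + a with hy
  have hy1 : 1 ≤ y := by linarith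
  have hy2 : y ≤ 2 := by linarith
  have f1 : 1 ≤ (y * r1) * (y * r2) := by nlinarith
  have e1 : 1 ≤ (y * r1) * (y * r2) * (y * r3) := by nlinarith
  have e0 : (y * r1) * (y * r2) * (y * r3) = y ^ 3 * (r1 * r2 * r3) := by ring
  have hy3 : 0 < y ^ 3 := by positivity
  have e2 : 4 < y ^ 3 := by
    rw [e0] at e1
    nlinarith
  have e3 : 3 / 2 < y := by
    by_contra hcon
    push Not at hcon
    have : y ^ 3 ≤ (3 / 2) ^ 3 := pow_le_pow_left₀ (by linarith) hcon 3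
    norm_num at this
    linarith
  have e4 := sq2 k1 k2
  have e4' := sq2 f1 k3
  have e5 : (y * r1) * (y * r2) * (y * r3) ≤ y ^ 3 / 4 := by
    rw [e0]
    nlinarith
  have e7 : ((y * r1) * (y * r2) * (y * r3)) ^ 2 ≤ (y ^ 3 / 4) ^ 2 :=
    pow_le_pow_left₀ (by linarith) e5 2
  have e8' : 2 + (y ^ 3 / 4) ^ 2 ≤ 3 * y := by
    have g1 : 0 ≤ (2 - y) * (y ^ 5 + 2 * y ^ 4 + 4 * y ^ 3 + 8 * y ^ 2 + 16 * y - 16) := by
      apply mul_nonneg (by linarith)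
      have := pow_pos (lt_of_lt_of_le one_pos hy1) 5
      have := pow_pos (lt_of_lt_of_le one_pos hy1) 4
      have := pow_pos (lt_of_lt_of_le one_pos hy1) 2
      nlinarith
    nlinarith [g1]
  have e8 : y ^ 2 * (r1 ^ 2 + r2 ^ 2 + r3 ^ 2) ≤ 3 * y := by nlinarith
  have e9 : y * (r1 ^ 2 + r2 ^ 2 + r3 ^ 2) ≤ 3 := by
    have : y * (y * (r1 ^ 2 + r2 ^ 2 + r3 ^ 2)) ≤ y * 3 := by nlinarith
    exact le_of_mul_le_mul_left this (by linarith)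
  have ea : 0 < a := by linarith
  have e10 : (1 - a) * (y * (r1 ^ 2 + r2 ^ 2 + r3 ^ 2)) ≤ (1 - a) * 3 :=
    mul_le_mul_of_nonneg_left e9 (by linarith)
  have e11 : (1 - a ^ 2) * r1 ^ 2 + (1 - a ^ 2) * r2 ^ 2 + (1 - a ^ 2) * r3 ^ 2 =
      (1 - a) * (y * (r1 ^ 2 + r2 ^ 2 + r3 ^ 2)) := by
    rw [hy]; ring
  have e12 : a * (3 / 2) ≤ a * (c1 + c2 + c3) := by nlinarith
  exact le_of_mul_le_mul_left e12 ea

lemma step {y y0 y1 : ℝ} (hy : 1 ≤ y0) (h0 : y0 ≤ y) (h1 : y ≤ y1) (h2 : y1 ≤ 2)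
    (h25 : 25 ≤ y ^ 7)
    (h : (2 - y0) * y1 * (y1 ^ 7 / 25 - 1) ^ 2 ≤ 2 * (y0 - 1) ^ 2) :
    (2 - y) * y * (y ^ 7 / 25 - 1) ^ 2 ≤ 2 * (y - 1) ^ 2 := by
  have hy0 : 0 ≤ y := by linarith
  have e1 : y ^ 7 ≤ y1 ^ 7 := pow_le_pow_left₀ hy0 h1 7
  have e2 : 0 ≤ y ^ 7 / 25 - 1 := by linarith
  have e3 : (y ^ 7 / 25 - 1) ^ 2 ≤ (y1 ^ 7 / 25 - 1) ^ 2 :=
    pow_le_pow_left₀ e2 (by linarith) 2
  have e4 : (2 - y) * y ≤ (2 - y0) * y1 := by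
    apply mul_le_mul (by linarith) h1 hy0 (by linarith)
  have e5 : (2 - y) * y * (y ^ 7 / 25 - 1) ^ 2 ≤ (2 - y0) * y1 * (y1 ^ 7 / 25 - 1) ^ 2 := by
    apply mul_le_mul e4 e3 (by positivity)
    exact mul_nonneg (by linarith) (by linarith)
  have e6 : (y0 - 1) ^ 2 ≤ (y - 1) ^ 2 := pow_le_pow_left₀ (by linarith) (by linarith) 2
  linarith

lemma onevar {y : ℝ} (hy1 : 1 ≤ y) (hy : y ≤ 2) (h25 : 25 ≤ y ^ 7) :
    (2 - y) * y * (y ^ 7 / 25 - 1) ^ 2 ≤ 2 * (y - 1) ^ 2 := by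
  rcases le_total y (158 / 100) with h | h
  · exfalso
    have : y ^ 7 ≤ (158 / 100) ^ 7 := pow_le_pow_left₀ (by linarith) h 7
    norm_num at this
    linarith
  rcases le_total y (1743 / 1000) with h1 | h1
  · exact step (by norm_num) h h1 (by norm_num) h25 (by norm_num)
  rcases le_total y (1809 / 1000) with h2 | h2
  · exact step (by norm_num) h1 h2 (by norm_num) h25 (by norm_num)
  rcases le_total y (1846 / 1000) with h3 | h3
  · exact step (by norm_num) h2 h3 (by norm_num) h25 (by norm_num)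
  rcases le_total y (1872 / 1000) with h4 | h4
  · exact step (by norm_num) h3 h4 (by norm_num) h25 (by norm_num)
  rcases le_total y (1894 / 1000) with h5 | h5
  · exact step (by norm_num) h4 h5 (by norm_num) h25 (by norm_num)
  rcases le_total y (1916 / 1000) with h6 | h6
  · exact step (by norm_num) h5 h6 (by norm_num) h25 (by norm_num)
  rcases le_total y (1944 / 1000) with h7 | h7
  · exact step (by norm_num) h6 h7 (by norm_num) h25 (by norm_num)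
  rcases le_total y (1993 / 1000) with h8 | h8
  · exact step (by norm_num) h7 h8 (by norm_num) h25 (by norm_num)
  · exact step (by norm_num) h8 hy (by norm_num) h25 (by norm_num)

/-- Weierstrass -/
lemma weier {x1 x2 x3 x4 : ℝ} (h1 : 0 ≤ x1) (h2 : 0 ≤ x2) (h3 : 0 ≤ x3) (h4 : 0 ≤ x4) :
    1 + (x1 + x2 + x3 + x4) ≤ (1 + x1) * (1 + x2) * (1 + x3) * (1 + x4) := by
  have a1 : 1 + (x1 + x2) ≤ (1 + x1) * (1 + x2) := by nlinarith [mul_nonneg h1 h2]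
  have a2 : 1 + (x1 + x2 + x3) ≤ (1 + x1) * (1 + x2) * (1 + x3) := by
    nlinarith [mul_nonneg (add_nonneg h1 h2) h3]
  nlinarith [mul_nonneg (add_nonneg (add_nonneg h1 h2) h3) h4]

lemma prodf {y s1 s2 s3 s4 : ℝ} (hy : 1 ≤ y) (h1 : y ≤ s1) (h2 : 1 ≤ s2) (h3 : 1 ≤ s3)
    (h4 : 1 ≤ s4) (hp : s1 * s2 * s3 * s4 ≤ y ^ 8 / 25) :
    max 0 (s1 / y - 1) + max 0 (s2 / y - 1) + max 0 (s3 / y - 1) + max 0 (s4 / y - 1) ≤
      y ^ 7 / 25 - 1 := by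
  have hy0 : 0 < y := by linarith
  have key : ∀ s : ℝ, 1 ≤ s → 1 + max 0 (s / y - 1) ≤ s := by
    intro s hs
    rcases max_cases (0:ℝ) (s / y - 1) with ⟨h, -⟩ | ⟨h, -⟩
    · rw [h]; linarith
    · rw [h]
      have : s / y ≤ s := div_le_self (by linarith) hy
      linarith
  have f1 : max 0 (s1 / y - 1) = s1 / y - 1 := by
    apply max_eq_right
    rw [sub_nonneg, le_div_iff₀ hy0, one_mul]
    exact h1
  have w := weier (le_max_left 0 (s1 / y - 1)) (le_max_left 0 (s2 / y - 1))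
    (le_max_left 0 (s3 / y - 1)) (le_max_left 0 (s4 / y - 1))
  have g1 : 1 + max 0 (s1 / y - 1) = s1 / y := by rw [f1]; ring
  have s1p : 0 < s1 := by linarith
  have s2p : 0 < s2 := by linarith
  have s3p : 0 < s3 := by linarith
  have g0 : 0 ≤ s1 / y := by positivity
  have p2 : 0 ≤ 1 + max 0 (s2 / y - 1) := by positivity
  have p3 : 0 ≤ 1 + max 0 (s3 / y - 1) := by positivity
  have p4 : 0 ≤ 1 + max 0 (s4 / y - 1) := by positivity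
  have q1 : (1 + max 0 (s1 / y - 1)) * (1 + max 0 (s2 / y - 1)) * (1 + max 0 (s3 / y - 1)) *
      (1 + max 0 (s4 / y - 1)) ≤ (s1 / y) * s2 * s3 * s4 := by
    rw [g1]
    apply mul_le_mul _ (key s4 h4) p4 (by positivity)
    apply mul_le_mul _ (key s3 h3) p3 (by positivity)
    apply mul_le_mul le_rfl (key s2 h2) p2 g0
  have q2 : (s1 / y) * s2 * s3 * s4 ≤ y ^ 7 / 25 := by
    have : (s1 / y) * s2 * s3 * s4 = (s1 * s2 * s3 * s4) / y := by ring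
    rw [this, div_le_iff₀ hy0]
    calc s1 * s2 * s3 * s4 ≤ y ^ 8 / 25 := hp
      _ = y ^ 7 / 25 * y := by ring
  linarith

lemma sqsum {x1 x2 x3 x4 : ℝ} (g1 : 0 ≤ x1) (g2 : 0 ≤ x2) (g3 : 0 ≤ x3) (g4 : 0 ≤ x4) :
    x1 ^ 2 + x2 ^ 2 + x3 ^ 2 + x4 ^ 2 ≤ (x1 + x2 + x3 + x4) ^ 2 := by
  have e : (x1 + x2 + x3 + x4) ^ 2 = x1 ^ 2 + x2 ^ 2 + x3 ^ 2 + x4 ^ 2 +
      2 * (x1 * x2 + x1 * x3 + x1 * x4 + x2 * x3 + x2 * x4 + x3 * x4) := by ring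
  rw [e]
  have := mul_nonneg g1 g2
  have := mul_nonneg g1 g3
  have := mul_nonneg g1 g4
  have := mul_nonneg g2 g3
  have := mul_nonneg g2 g4
  have := mul_nonneg g3 g4
  linarith

lemma real4 {a r1 r2 r3 r4 c1 c2 c3 c4 : ℝ} (ha0 : 0 ≤ a) (ha1 : a ≤ 1)
    (h1 : 1 ≤ (1 - a ^ 2) * r1 ^ 2 + 2 * a * c1) (h2 : 1 ≤ (1 - a ^ 2) * r2 ^ 2 + 2 * a * c2)
    (h3 : 1 ≤ (1 - a ^ 2) * r3 ^ 2 + 2 * a * c3) (h4 : 1 ≤ (1 - a ^ 2) * r4 ^ 2 + 2 * a * c4)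
    (k1 : 1 ≤ (1 + a) * r1) (k2 : 1 ≤ (1 + a) * r2) (k3 : 1 ≤ (1 + a) * r3)
    (k4 : 1 ≤ (1 + a) * r4)
    (hp : 5 * (r1 * r2 * r3 * r4) < 1) (hc : c1 + c2 + c3 + c4 < 2) :
    4 ≤ (c1 + c2 + c3 + c4) ^ 2 + 3 * ((r1 ^ 2 + r2 ^ 2 + r3 ^ 2 + r4 ^ 2) -
      2 * (c1 ^ 2 + c2 ^ 2 + c3 ^ 2 + c4 ^ 2)) := by
  set y := 1 + a with hy
  have hy1 : 1 ≤ y := by linarith
  have hy2 : y ≤ 2 := by linarith
  have hy0 : 0 < y := by linarith
  have f1 : 1 ≤ (y * r1) * (y * r2) := by nlinarith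
  have f2 : 1 ≤ (y * r1) * (y * r2) * (y * r3) := by nlinarith
  have e1 : 1 ≤ (y * r1) * (y * r2) * (y * r3) * (y * r4) := by nlinarith
  have e0 : (y * r1) * (y * r2) * (y * r3) * (y * r4) = y ^ 4 * (r1 * r2 * r3 * r4) := by ring
  have hy4 : 0 < y ^ 4 := by positivity
  have e2 : 5 < y ^ 4 := by
    rw [e0] at e1
    nlinarith
  have e3 : 7 / 5 < y := by
    by_contra hcon
    push Not at hcon
    have : y ^ 4 ≤ (7 / 5) ^ 4 := pow_le_pow_left₀ (by linarith) hcon 4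
    norm_num at this
    linarith
  have ea : 0 < a := by linarith
  have ea1 : a < 1 := by
    rcases ha1.lt_or_eq with h | h
    · exact h
    · exfalso
      rw [h] at h1 h2 h3 h4
      norm_num at h1 h2 h3 h4
      linarith
  have hb : 0 < 1 - a := by linarith
  have hya : 1 - a = 2 - y := by rw [hy]; ring
  have e5 : (y * r1) * (y * r2) * (y * r3) * (y * r4) ≤ y ^ 4 / 5 := by
    rw [e0]
    nlinarith
  have e7 : ((y * r1) * (y * r2) * (y * r3) * (y * r4)) ^ 2 ≤ (y ^ 4 / 5) ^ 2 :=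
    pow_le_pow_left₀ (by linarith) e5 2
  -- squares
  have hs : ∀ r : ℝ, 1 ≤ y * r → 1 ≤ (y * r) ^ 2 := fun r hr => by nlinarith
  have hprod : (y * r1) ^ 2 * (y * r2) ^ 2 * (y * r3) ^ 2 * (y * r4) ^ 2 ≤ y ^ 8 / 25 := by
    calc (y * r1) ^ 2 * (y * r2) ^ 2 * (y * r3) ^ 2 * (y * r4) ^ 2
        = ((y * r1) * (y * r2) * (y * r3) * (y * r4)) ^ 2 := by ring
      _ ≤ (y ^ 4 / 5) ^ 2 := e7
      _ = y ^ 8 / 25 := by ring
  -- negative parts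
  have hneg : ∀ r c : ℝ, 1 ≤ (1 - a ^ 2) * r ^ 2 + 2 * a * c →
      2 * a * max 0 (1 / 2 - c) ≤ (1 - a) * max 0 ((y * r) ^ 2 / y - 1) := by
    intro r c h
    have g1 : (y * r) ^ 2 / y = y * r ^ 2 := by field_simp
    rw [g1]
    rcases max_cases (0:ℝ) (1 / 2 - c) with ⟨h5, -⟩ | ⟨h5, -⟩
    · rw [h5, mul_zero]
      exact mul_nonneg hb.le (le_max_left _ _)
    · rw [h5]
      have g2 : (1 - a) * (y * r ^ 2 - 1) ≤ (1 - a) * max 0 (y * r ^ 2 - 1) :=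
        mul_le_mul_of_nonneg_left (le_max_right _ _) hb.le
      have g3 : (1 - a ^ 2) * r ^ 2 = (1 - a) * (y * r ^ 2) := by rw [hy]; ring
      nlinarith
  set N := max 0 (1 / 2 - c1) + max 0 (1 / 2 - c2) + max 0 (1 / 2 - c3) + max 0 (1 / 2 - c4)
    with hN
  set G := y ^ 7 / 25 - 1 with hG
  have hN1 := hneg r1 c1 h1
  have hN2 := hneg r2 c2 h2
  have hN3 := hneg r3 c3 h3
  have hN4 := hneg r4 c4 h4
  have hm1 := le_max_right 0 (1 / 2 - c1)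
  have hm2 := le_max_right 0 (1 / 2 - c2)
  have hm3 := le_max_right 0 (1 / 2 - c3)
  have hm4 := le_max_right 0 (1 / 2 - c4)
  have hn1 := le_max_left 0 (1 / 2 - c1)
  have hn2 := le_max_left 0 (1 / 2 - c2)
  have hn3 := le_max_left 0 (1 / 2 - c3)
  have hn4 := le_max_left 0 (1 / 2 - c4)
  have hNpos : 0 < N := by rw [hN]; linarith
  have hNG : 2 * a * N ≤ (1 - a) * G := by
    have hsum : 2 * a * N ≤ (1 - a) * (max 0 ((y * r1) ^ 2 / y - 1) + max 0 ((y * r2) ^ 2 / y - 1) +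
        max 0 ((y * r3) ^ 2 / y - 1) + max 0 ((y * r4) ^ 2 / y - 1)) := by
      rw [hN]; linarith
    rcases le_or_gt y ((y * r1) ^ 2) with g | g1
    · have := prodf hy1 g (hs r2 k2) (hs r3 k3) (hs r4 k4) hprod
      exact hsum.trans (mul_le_mul_of_nonneg_left this hb.le)
    rcases le_or_gt y ((y * r2) ^ 2) with g | g2
    · have := prodf hy1 g (hs r1 k1) (hs r3 k3) (hs r4 k4) (by linarith)
      exact hsum.trans (mul_le_mul_of_nonneg_left (by linarith) hb.le)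
    rcases le_or_gt y ((y * r3) ^ 2) with g | g3
    · have := prodf hy1 g (hs r1 k1) (hs r2 k2) (hs r4 k4) (by linarith)
      exact hsum.trans (mul_le_mul_of_nonneg_left (by linarith) hb.le)
    rcases le_or_gt y ((y * r4) ^ 2) with g | g4
    · have := prodf hy1 g (hs r1 k1) (hs r2 k2) (hs r3 k3) (by linarith)
      exact hsum.trans (mul_le_mul_of_nonneg_left (by linarith) hb.le)
    exfalso
    have hz : ∀ s : ℝ, s < y → max 0 (s / y - 1) = 0 := by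
      intro s hs
      apply max_eq_left
      rw [sub_nonpos, div_le_one hy0]
      exact hs.le
    rw [hz _ g1, hz _ g2, hz _ g3, hz _ g4] at hsum
    have : 0 < 2 * a * N := by positivity
    linarith
  have hG0 : 0 < G := by
    by_contra hcon
    push Not at hcon
    have h5 : 0 < 2 * a * N := by positivity
    have h6 : (1 - a) * G ≤ 0 := mul_nonpos_of_nonneg_of_nonpos hb.le hcon
    linarith
  have hov := onevar hy1 hy2 (by rw [hG] at hG0; linarith)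
  -- sum of squares of the deviations
  set D := 2 - (c1 + c2 + c3 + c4) with hD
  have hDpos : 0 < D := by rw [hD]; linarith
  have hsplit : ∀ c : ℝ, (c - 1 / 2) ^ 2 = (max 0 (c - 1 / 2)) ^ 2 + (max 0 (1 / 2 - c)) ^ 2 ∧
      c - 1 / 2 = max 0 (c - 1 / 2) - max 0 (1 / 2 - c) := by
    intro c
    rcases le_total c (1 / 2) with h | h
    · rw [max_eq_left (by linarith : c - 1 / 2 ≤ 0), max_eq_right (by linarith : 0 ≤ 1 / 2 - c)]
      constructor <;> ring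
    · rw [max_eq_right (by linarith : 0 ≤ c - 1 / 2), max_eq_left (by linarith : 1 / 2 - c ≤ 0)]
      constructor <;> ring
  obtain ⟨t1, u1⟩ := hsplit c1
  obtain ⟨t2, u2⟩ := hsplit c2
  obtain ⟨t3, u3⟩ := hsplit c3
  obtain ⟨t4, u4⟩ := hsplit c4
  have v1 := sqsum hn1 hn2 hn3 hn4
  have v2 := sqsum (le_max_left 0 (c1 - 1 / 2)) (le_max_left 0 (c2 - 1 / 2))
    (le_max_left 0 (c3 - 1 / 2)) (le_max_left 0 (c4 - 1 / 2))
  rw [← hN] at v1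
  set M := max 0 (c1 - 1 / 2) + max 0 (c2 - 1 / 2) + max 0 (c3 - 1 / 2) + max 0 (c4 - 1 / 2)
    with hM
  have hM0 : 0 ≤ M := by rw [hM]; positivity
  have hMN : M ≤ N := by rw [hM, hN]; linarith
  have v3 : M ^ 2 ≤ N ^ 2 := pow_le_pow_left₀ hM0 hMN 2
  have hdev : (c1 - 1 / 2) ^ 2 + (c2 - 1 / 2) ^ 2 + (c3 - 1 / 2) ^ 2 + (c4 - 1 / 2) ^ 2 ≤
      2 * N ^ 2 := by
    rw [t1, t2, t3, t4]
    linarith
  -- bound of N
  have hN12 : 2 * N ^ 2 * y ≤ 1 - a := by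
    have g1 : (2 * a * N) ^ 2 ≤ ((1 - a) * G) ^ 2 := pow_le_pow_left₀ (by positivity) hNG 2
    have g2 : (1 - a) * y * G ^ 2 ≤ 2 * a ^ 2 := by
      rw [hya]
      have : y - 1 = a := by rw [hy]; ring
      rw [this] at hov
      exact hov
    have g3 : 4 * a ^ 2 * (N ^ 2 * y) ≤ 4 * a ^ 2 * ((1 - a) / 2) := by
      calc 4 * a ^ 2 * (N ^ 2 * y) = (2 * a * N) ^ 2 * y := by ring
        _ ≤ ((1 - a) * G) ^ 2 * y := mul_le_mul_of_nonneg_right g1 hy0.le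
        _ = (1 - a) * ((1 - a) * y * G ^ 2) := by ring
        _ ≤ (1 - a) * (2 * a ^ 2) := mul_le_mul_of_nonneg_left g2 hb.le
        _ = 4 * a ^ 2 * ((1 - a) / 2) := by ring
    have g4 := le_of_mul_le_mul_left g3 (by positivity)
    linarith
  -- bound of T
  have hT : 4 ≤ y * (r1 ^ 2 + r2 ^ 2 + r3 ^ 2 + r4 ^ 2) := by
    have g1 : (1 - a) * 4 ≤ (1 - a) * (y * (r1 ^ 2 + r2 ^ 2 + r3 ^ 2 + r4 ^ 2)) := by
      have g3 : ∀ r : ℝ, (1 - a ^ 2) * r ^ 2 = (1 - a) * (y * r ^ 2) := fun r => by rw [hy]; ring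
      rw [g3] at h1 h2 h3 h4
      have g4 : 2 * a * c1 + 2 * a * c2 + 2 * a * c3 + 2 * a * c4 = 4 * a - 2 * (a * D) := by
        rw [hD]; ring
      have g5 : (1 - a) * (y * (r1 ^ 2 + r2 ^ 2 + r3 ^ 2 + r4 ^ 2)) =
        (1 - a) * (y * r1 ^ 2) + (1 - a) * (y * r2 ^ 2) + (1 - a) * (y * r3 ^ 2) +
          (1 - a) * (y * r4 ^ 2) := by ring
      have g6 := mul_pos ea hDpos
      rw [g5]
      linarith
    exact le_of_mul_le_mul_left g1 hb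
  set T := r1 ^ 2 + r2 ^ 2 + r3 ^ 2 + r4 ^ 2 with hTd
  have hfin : y * 6 ≤ y * (3 * T - 12 * N ^ 2) := by
    have g1 : y * (3 * T - 12 * N ^ 2) = 3 * (y * T) - 6 * (2 * N ^ 2 * y) := by ring
    rw [g1]
    linarith
  have hfin2 := le_of_mul_le_mul_left hfin hy0
  have hD2 : c1 + c2 + c3 + c4 = 2 - D := by rw [hD]; ring
  have hrho : c1 ^ 2 + c2 ^ 2 + c3 ^ 2 + c4 ^ 2 = 1 - D + ((c1 - 1 / 2) ^ 2 + (c2 - 1 / 2) ^ 2 +
      (c3 - 1 / 2) ^ 2 + (c4 - 1 / 2) ^ 2) := by rw [hD]; ring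
  rw [hD2, hrho]
  have g1 : (2 - D) ^ 2 = 4 - 4 * D + D ^ 2 := by ring
  rw [g1]
  linarith [sq_nonneg D]

end Pool.Agent.R552.PM
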