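import Mathlib
import Pool.Agent.R552.PM.Alg
import Pool.Agent.R552.PM.Cx
import Pool.Agent.R552.PM.Real

/-! The power mean of order `-2` for degree at most five and for collinear zeros. -/

set_option autoImplicit false
set_option maxHeartbeats 400000

open Polynomial ComplexConjugate

noncomputable section

namespace Pool.Agent.R552.PM

lemma constr {a : ℝ} {z : ℂ} (hz : ‖z‖ ≤ 1) (hne : (a : ℂ) ≠ z) :
    1 ≤ (1 - a ^ 2) * ‖((a : ℂ) - z)⁻¹‖ ^ 2 + 2 * a * (((a : ℂ) - z)⁻¹).re := by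
  set d : ℂ := (a : ℂ) - z with hd
  have hd0 : d ≠ 0 := sub_ne_zero.2 hne
  have hn : 0 < Complex.normSq d := Complex.normSq_pos.2 hd0
  have h1 : ‖d⁻¹‖ ^ 2 = 1 / Complex.normSq d := by
    rw [norm_inv, inv_pow, Complex.normSq_eq_norm_sq, one_div]
  have h2 : (d⁻¹).re = d.re / Complex.normSq d := Complex.inv_re d
  rw [h1, h2]
  have h3 : (1 - a ^ 2) * (1 / Complex.normSq d) + 2 * a * (d.re / Complex.normSq d) =
      ((1 - a ^ 2) + 2 * a * d.re) / Complex.normSq d := by ring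
  rw [h3, le_div_iff₀ hn, one_mul]
  have h4 : Complex.normSq d = (a - z.re) ^ 2 + z.im ^ 2 := by
    rw [Complex.normSq_apply, hd]
    simp
    ring
  have h5 : d.re = a - z.re := by rw [hd]; simp
  have h6 : z.re ^ 2 + z.im ^ 2 ≤ 1 := by
    have h7 : Complex.normSq z ≤ 1 := by
      rw [Complex.normSq_eq_norm_sq]
      nlinarith [norm_nonneg z]
    rw [Complex.normSq_apply] at h7
    nlinarith
  rw [h4, h5]
  nlinarith

lemma rge {a : ℝ} (ha0 : 0 ≤ a) {z : ℂ} (hz : ‖z‖ ≤ 1) (hne : (a : ℂ) ≠ z) :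
    1 ≤ (1 + a) * ‖((a : ℂ) - z)⁻¹‖ := by
  have hd0 : (a : ℂ) - z ≠ 0 := sub_ne_zero.2 hne
  have h1 : ‖(a : ℂ) - z‖ ≤ 1 + a := by
    refine (norm_sub_le _ _).trans ?_
    rw [Complex.norm_real, Real.norm_of_nonneg ha0]
    linarith
  rw [norm_inv, ← div_eq_mul_inv, le_div_iff₀ (norm_pos_iff.2 hd0), one_mul]
  exact h1

variable {m : ℕ}

/-- the multiset of the zeros -/
def ms (z : Fin m → ℂ) : Multiset ℂ := Finset.univ.val.map z

lemma card_ms (z : Fin m → ℂ) : Multiset.card (ms z) = m := by simp [ms]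

lemma P_ms (z : Fin m → ℂ) : P (ms z) = ∏ j, (X - C (z j)) := by
  unfold P ms
  rw [Multiset.map_map]
  rfl

lemma S1_ms (a : ℂ) (z : Fin m → ℂ) : S1 a (ms z) = ∑ j, (a - z j)⁻¹ := by
  unfold S1 ms
  rw [Multiset.map_map]
  rfl

lemma S2_ms (a : ℂ) (z : Fin m → ℂ) : S2 a (ms z) = ∑ j, ((a - z j)⁻¹) ^ 2 := by
  unfold S2 ms
  rw [Multiset.map_map]
  rfl

lemma prod_ms (a : ℂ) (z : Fin m → ℂ) : ((ms z).map (fun w => a - w)).prod = ∏ j, (a - z j) := by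
  unfold ms
  rw [Multiset.map_map]
  rfl

lemma not_mem {a : ℂ} {Z : Multiset ℂ} (hr : a ∉ (derivative ((X - C a) * P Z)).roots) :
    a ∉ Z := by
  intro ha
  apply hr
  have hmon : (P Z).Monic := monic_multiset_prod_of_monic _ _ fun w _ => monic_X_sub_C w
  have hdeg : (P Z).natDegree = Multiset.card Z := by
    rw [P, natDegree_multiset_prod_X_sub_C_eq_card]
  have hpd : ((X - C a) * P Z).natDegree = Multiset.card Z + 1 := by
    rw [(monic_X_sub_C a).natDegree_mul hmon, natDegree_X_sub_C, hdeg, add_comm]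
  rw [mem_roots']
  refine ⟨fun h0 => ?_, ?_⟩
  · have := natDegree_eq_zero_of_derivative_eq_zero h0
    omega
  · rw [IsRoot, derivative_mul]
    have h1 : (P Z).eval a = 0 := by
      rw [eval_P, Multiset.prod_eq_zero_iff, Multiset.mem_map]
      exact ⟨a, ha, sub_self a⟩
    simp [h1]

/-- the basic facts, for all degrees -/
theorem basics {a : ℂ} {z : Fin m → ℂ}
    (hr : a ∉ (derivative ((X - C a) * P (ms z))).roots) :
    let W := (derivative ((X - C a) * P (ms z))).roots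
    (∀ j, a ≠ z j) ∧ Multiset.card W = m ∧ S1 a W = 2 * ∑ j, (a - z j)⁻¹ ∧
      S2 a W = (∑ j, (a - z j)⁻¹) ^ 2 + 3 * ∑ j, ((a - z j)⁻¹) ^ 2 ∧
      (1 ≤ (m + 1) * ∏ j, ‖(a - z j)⁻¹‖ → (m : ℝ) ≤ A2 a W) := by
  intro W
  have ha := not_mem hr
  obtain ⟨h1, h2, h3, h4⟩ := crit_rel ha hr
  rw [card_ms] at h1 h4
  have hne : ∀ j, a ≠ z j := by
    intro j hj
    apply ha
    unfold ms
    rw [Multiset.mem_map]
    exact ⟨j, Finset.mem_univ_val j, hj.symm⟩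
  refine ⟨hne, h1, ?_, ?_, ?_⟩
  · rw [← S1_ms]; exact h2
  · rw [← S1_ms, ← S2_ms]; exact h3
  · intro h
    have h5 : ‖(W.map (fun w => a - w)).prod‖ ≤ 1 := by
      rw [prod_ms] at h4
      have h6 : ‖∏ j, (a - z j)‖ = (m + 1 : ℝ) * ‖(W.map (fun w => a - w)).prod‖ := by
        rw [h4, norm_mul]
        congr 1
        have : ((m : ℂ) + 1) = ((m + 1 : ℝ) : ℂ) := by push_cast; rfl
        rw [this, Complex.norm_real, Real.norm_of_nonneg (by positivity)]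
      have h7 : ∏ j, ‖(a - z j)⁻¹‖ = ‖∏ j, (a - z j)‖⁻¹ := by
        rw [norm_prod, ← Finset.prod_inv_distrib]
        exact Finset.prod_congr rfl fun j _ => norm_inv _
      rw [h7] at h
      have h8 : 0 < ‖∏ j, (a - z j)‖ := by
        rw [norm_pos_iff]
        exact Finset.prod_ne_zero_iff.2 fun j _ => sub_ne_zero.2 (hne j)
      rw [← div_eq_mul_inv, le_div_iff₀ h8, one_mul, h6] at h
      have h9 : (0:ℝ) < m + 1 := by positivity
      by_contra hcon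
      push Not at hcon
      have := mul_lt_mul_of_pos_left hcon h9
      linarith
    have h6 := amgm1 hr h5
    rw [h1] at h6
    exact h6

lemma re_sq (u : ℂ) : (u ^ 2).re = 2 * u.re ^ 2 - ‖u‖ ^ 2 := by
  rw [← Complex.normSq_eq_norm_sq, Complex.normSq_apply, sq u, Complex.mul_re]
  ring

/-- degree at most five -/
theorem small (hm1 : 1 ≤ m) (hm : m ≤ 4) {a : ℝ} (ha0 : 0 ≤ a) (ha1 : a ≤ 1) {z : Fin m → ℂ}
    (hz : ∀ j, ‖z j‖ ≤ 1)
    (hr : (a : ℂ) ∉ (derivative ((X - C (a : ℂ)) * P (ms z))).roots) :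
    (m : ℝ) ≤ A2 (a : ℂ) (derivative ((X - C (a : ℂ)) * P (ms z))).roots := by
  obtain ⟨hne, hcard, hS1, hS2, hprod⟩ := basics hr
  set W := (derivative ((X - C (a : ℂ)) * P (ms z))).roots with hW
  rcases le_or_gt 1 ((m + 1) * ∏ j, ‖((a : ℂ) - z j)⁻¹‖) with h | h
  · exact hprod h
  have hC := fun j => constr (hz j) (hne j)
  have hR := fun j => rge ha0 (hz j) (hne j)
  have hfirst : (m : ℝ) / 2 ≤ (∑ j, ((a : ℂ) - z j)⁻¹).re → (m : ℝ) ≤ A2 (a : ℂ) W := by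
    intro h1
    have h2 : (Multiset.card W : ℝ) ≤ A2 (a : ℂ) W := by
      apply first (by omega)
      rw [hcard, hS1, norm_mul, Complex.norm_ofNat]
      have := Complex.re_le_norm (∑ j, ((a : ℂ) - z j)⁻¹)
      linarith
    rwa [hcard] at h2
  clear_value W
  rcases (by omega : m = 1 ∨ m = 2 ∨ m = 3 ∨ m = 4) with rfl | rfl | rfl | rfl
  · rw [Fin.prod_univ_one] at h
    have h1 := hR 0
    have h2 : (1 + a) * ‖((a : ℂ) - z 0)⁻¹‖ ≤ 2 * ‖((a : ℂ) - z 0)⁻¹‖ :=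
      mul_le_mul_of_nonneg_right (by linarith) (norm_nonneg _)
    push_cast at h
    linarith
  · rw [Fin.prod_univ_two] at h
    apply hfirst
    rw [Fin.sum_univ_two, Complex.add_re]
    push_cast at h ⊢
    have := real2 ha0 ha1 (hC 0) (hC 1) (hR 0) (hR 1) (by linarith)
    linarith
  · rw [Fin.prod_univ_three] at h
    apply hfirst
    rw [Fin.sum_univ_three, Complex.add_re, Complex.add_re]
    push_cast at h ⊢
    have := real3 ha0 ha1 (hC 0) (hC 1) (hC 2) (hR 0) (hR 1) (hR 2) (by linarith)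
    linarith
  · rw [Fin.prod_univ_four] at h
    rcases le_or_gt 2 (∑ j, ((a : ℂ) - z j)⁻¹).re with h1 | h1
    · apply hfirst
      push_cast
      linarith
    rw [Fin.sum_univ_four, Complex.add_re, Complex.add_re, Complex.add_re] at h1
    push_cast at h
    have h2 := real4 ha0 ha1 (hC 0) (hC 1) (hC 2) (hC 3) (hR 0) (hR 1) (hR 2) (hR 3)
      (by linarith) h1
    have h3 := four (a := (a : ℂ)) (W := W) hcard
    have h4 : S1 (a : ℂ) W / 2 = ∑ j, ((a : ℂ) - z j)⁻¹ := by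
      rw [hS1]; ring
    rw [h4, hS2] at h3
    have h5 : (∑ j, ((a : ℂ) - z j)⁻¹) ^ 2 + 3 * ∑ j, (((a : ℂ) - z j)⁻¹) ^ 2 -
        (∑ j, ((a : ℂ) - z j)⁻¹) ^ 2 = 3 * ∑ j, (((a : ℂ) - z j)⁻¹) ^ 2 := by ring
    rw [h5, norm_mul, Complex.norm_ofNat] at h3
    have h6 : (((a : ℂ) - z 0)⁻¹.re + ((a : ℂ) - z 1)⁻¹.re + ((a : ℂ) - z 2)⁻¹.re +
        ((a : ℂ) - z 3)⁻¹.re) ^ 2 ≤ ‖∑ j, ((a : ℂ) - z j)⁻¹‖ ^ 2 := by
      have h7 := Complex.abs_re_le_norm (∑ j, ((a : ℂ) - z j)⁻¹)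
      rw [Fin.sum_univ_four, Complex.add_re, Complex.add_re, Complex.add_re] at h7
      rw [Fin.sum_univ_four, ← sq_abs]
      exact pow_le_pow_left₀ (abs_nonneg _) h7 2
    have h7 : (‖((a : ℂ) - z 0)⁻¹‖ ^ 2 + ‖((a : ℂ) - z 1)⁻¹‖ ^ 2 + ‖((a : ℂ) - z 2)⁻¹‖ ^ 2 +
        ‖((a : ℂ) - z 3)⁻¹‖ ^ 2) - 2 * (((a : ℂ) - z 0)⁻¹.re ^ 2 + ((a : ℂ) - z 1)⁻¹.re ^ 2 +
        ((a : ℂ) - z 2)⁻¹.re ^ 2 + ((a : ℂ) - z 3)⁻¹.re ^ 2) ≤
        ‖∑ j, (((a : ℂ) - z j)⁻¹) ^ 2‖ := by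
      have h8 := Complex.abs_re_le_norm (∑ j, (((a : ℂ) - z j)⁻¹) ^ 2)
      have h9 := neg_abs_le (∑ j, (((a : ℂ) - z j)⁻¹) ^ 2).re
      have h10 : (∑ j, (((a : ℂ) - z j)⁻¹) ^ 2).re = (2 * ((a : ℂ) - z 0)⁻¹.re ^ 2 -
          ‖((a : ℂ) - z 0)⁻¹‖ ^ 2) + (2 * ((a : ℂ) - z 1)⁻¹.re ^ 2 -
          ‖((a : ℂ) - z 1)⁻¹‖ ^ 2) + (2 * ((a : ℂ) - z 2)⁻¹.re ^ 2 -
          ‖((a : ℂ) - z 2)⁻¹‖ ^ 2) + (2 * ((a : ℂ) - z 3)⁻¹.re ^ 2 -
          ‖((a : ℂ) - z 3)⁻¹‖ ^ 2) := by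
        rw [Fin.sum_univ_four, Complex.add_re, Complex.add_re, Complex.add_re, re_sq, re_sq, re_sq,
          re_sq]
      rw [h10] at h8 h9
      linarith
    push_cast
    linarith

/-- the real inequality for collinear zeros -/
lemma col_aux (hm : 1 ≤ m) (v : Fin m → ℝ) (hv : ∀ j, v j ≤ -1 ∨ 1 / 2 ≤ v j) :
    (m : ℝ) ≤ (∑ j, v j) ^ 2 + 3 * ∑ j, v j ^ 2 := by
  by_cases hneg : ∃ j, v j ≤ -1
  · obtain ⟨i, hi⟩ := hneg
    have h1 : ∀ j, 0 ≤ 3 * v j ^ 2 + v j / 2 - 1 := by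
      intro j
      rcases hv j with h | h <;> nlinarith
    have h2 : 3 / 2 ≤ 3 * v i ^ 2 + v i / 2 - 1 := by nlinarith
    have h3 : 3 * v i ^ 2 + v i / 2 - 1 ≤ ∑ j, (3 * v j ^ 2 + v j / 2 - 1) :=
      Finset.single_le_sum (f := fun j => 3 * v j ^ 2 + v j / 2 - 1) (fun j _ => h1 j)
        (Finset.mem_univ i)
    have h4 : ∑ j, (3 * v j ^ 2 + v j / 2 - 1) = 3 * ∑ j, v j ^ 2 + (∑ j, v j) / 2 - m := by
      rw [Finset.sum_sub_distrib, Finset.sum_add_distrib, ← Finset.mul_sum, ← Finset.sum_div]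
      simp
    rw [h4] at h3
    nlinarith [sq_nonneg (∑ j, v j - 1 / 4)]
  · push Not at hneg
    have h1 : ∀ j, 1 / 2 ≤ v j := fun j => by
      rcases hv j with h | h
      · exact absurd h (not_le.2 (hneg j))
      · exact h
    have hm' : (1 : ℝ) ≤ m := by exact_mod_cast hm
    have h2 : (m : ℝ) * (1 / 2) ≤ ∑ j, v j := by
      have := Finset.card_nsmul_le_sum Finset.univ v (1 / 2) fun j _ => h1 j
      simpa using this
    have h3 : (m : ℝ) * (1 / 4) ≤ ∑ j, v j ^ 2 := by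
      have := Finset.card_nsmul_le_sum Finset.univ (fun j => v j ^ 2) (1 / 4) fun j _ => by
        have := h1 j
        nlinarith
      simpa using this
    nlinarith

lemma col_real (hm : 1 ≤ m) (v : Fin m → ℝ) (hv : ∀ j, 1 / 2 ≤ |v j|)
    (hopp : ∀ i j, 0 < v i → v j < 0 → 1 ≤ -(v i * v j)) :
    (m : ℝ) ≤ (∑ j, v j) ^ 2 + 3 * ∑ j, v j ^ 2 := by
  by_cases h : ∀ j, v j < 0 → v j ≤ -1
  · refine col_aux hm v fun j => ?_
    rcases lt_or_ge (v j) 0 with h1 | h1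
    · exact Or.inl (h j h1)
    · have := hv j
      rw [abs_of_nonneg h1] at this
      exact Or.inr this
  · push Not at h
    obtain ⟨j₀, h1, h2⟩ := h
    have h3 := col_aux hm (fun j => -v j) fun j => by
      rcases lt_trichotomy (v j) 0 with h4 | h4 | h4
      · right
        have := hv j
        rwa [abs_of_neg h4] at this
      · have := hv j
        rw [h4, abs_zero] at this
        linarith
      · left
        have := hopp j j₀ h4 h1
        nlinarith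
    simpa using h3

/-- collinear zeros -/
theorem col (hm1 : 1 ≤ m) {a : ℝ} (ha0 : 0 ≤ a) (ha1 : a ≤ 1) {z : Fin m → ℂ}
    (hz : ∀ j, ‖z j‖ ≤ 1) (hcol : ∃ ζ : ℂ, ∀ j, ∃ t : ℝ, z j = a + t * ζ)
    (hr : (a : ℂ) ∉ (derivative ((X - C (a : ℂ)) * P (ms z))).roots) :
    (m : ℝ) ≤ A2 (a : ℂ) (derivative ((X - C (a : ℂ)) * P (ms z))).roots := by
  obtain ⟨hne, hcard, hS1, hS2, hprod⟩ := basics hr
  set W := (derivative ((X - C (a : ℂ)) * P (ms z))).roots with hW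
  obtain ⟨ζ, hζ⟩ := hcol
  choose t ht using hζ
  have hζ0 : ζ ≠ 0 := by
    rintro rfl
    apply hne ⟨0, hm1⟩
    rw [ht]
    simp
  have hζn : 0 < ‖ζ‖ := norm_pos_iff.2 hζ0
  set η : ℂ := ζ / ‖ζ‖ with hη
  have hηn : ‖η‖ = 1 := by
    rw [hη, norm_div, Complex.norm_real, Real.norm_of_nonneg hζn.le, div_self hζn.ne']
  have hη0 : η ≠ 0 := by
    intro h0
    rw [h0, norm_zero] at hηn
    exact zero_ne_one hηn
  set τ : Fin m → ℝ := fun j => t j * ‖ζ‖ with hτ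
  have hzτ : ∀ j, z j = a + τ j * η := by
    intro j
    rw [ht j, hτ, hη]
    have : (‖ζ‖ : ℂ) ≠ 0 := by exact_mod_cast hζn.ne'
    push_cast
    field_simp
  have hτ0 : ∀ j, τ j ≠ 0 := by
    intro j h0
    apply hne j
    rw [hzτ j, h0]
    simp
  set v : Fin m → ℝ := fun j => -(τ j)⁻¹ with hv
  have hu : ∀ j, ((a : ℂ) - z j)⁻¹ = (v j : ℂ) * η⁻¹ := by
    intro j
    rw [hzτ j, hv]
    have : (τ j : ℂ) ≠ 0 := by exact_mod_cast hτ0 j
    push_cast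
    field_simp
    ring
  have hball : ∀ j, a ^ 2 + 2 * a * τ j * η.re + τ j ^ 2 ≤ 1 := by
    intro j
    have h1 : Complex.normSq (z j) ≤ 1 := by
      rw [Complex.normSq_eq_norm_sq]
      nlinarith [norm_nonneg (z j), hz j]
    have h2 : Complex.normSq η = 1 := by rw [Complex.normSq_eq_norm_sq, hηn, one_pow]
    rw [Complex.normSq_apply] at h1 h2
    have e1 : (z j).re = a + τ j * η.re := by rw [hzτ j]; simp
    have e2 : (z j).im = τ j * η.im := by rw [hzτ j]; simp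
    rw [e1, e2] at h1
    have h3 : τ j ^ 2 * (η.re * η.re + η.im * η.im) = τ j ^ 2 := by rw [h2, mul_one]
    nlinarith
  have hsum : (m : ℝ) ≤ (∑ j, v j) ^ 2 + 3 * ∑ j, v j ^ 2 := by
    refine col_real hm1 v ?_ ?_
    · intro j
      have h1 : ‖((a : ℂ) - z j)‖ ≤ 2 := by
        refine (norm_sub_le _ _).trans ?_
        rw [Complex.norm_real, Real.norm_of_nonneg ha0]
        have := hz j
        linarith
      have h2 : ‖((a : ℂ) - z j)‖ = |τ j| := by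
        rw [hzτ j, show (a : ℂ) - (a + τ j * η) = -(τ j * η) by ring, norm_neg, norm_mul, hηn,
          mul_one, Complex.norm_real, Real.norm_eq_abs]
      rw [h2] at h1
      have h3 : 0 < |τ j| := abs_pos.2 (hτ0 j)
      show 1 / 2 ≤ |-(τ j)⁻¹|
      rw [abs_neg, abs_inv, ← one_div]
      exact one_div_le_one_div_of_le h3 h1
    · intro i j h1 h2
      have h1' : τ i < 0 := by
        have : 0 < -(τ i)⁻¹ := h1
        rw [neg_pos, inv_lt_zero] at this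
        exact this
      have h2' : 0 < τ j := by
        have : -(τ j)⁻¹ < 0 := h2
        rw [neg_lt_zero, inv_pos] at this
        exact this
      have h3 := hball i
      have h4 := hball j
      have h5 : (-τ i) * τ j ≤ 1 := by
        have g1 : (-τ i + τ j) * ((-τ i) * τ j) ≤ (-τ i + τ j) * (1 - a ^ 2) := by
          nlinarith [mul_le_mul_of_nonneg_left h3 h2'.le,
            mul_le_mul_of_nonneg_left h4 (neg_pos.2 h1').le]
        have g2 := le_of_mul_le_mul_left g1 (by linarith)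
        nlinarith [sq_nonneg a]
      show 1 ≤ -(-(τ i)⁻¹ * -(τ j)⁻¹)
      have h6 : -(-(τ i)⁻¹ * -(τ j)⁻¹) = ((-τ i) * τ j)⁻¹ := by
        have := hτ0 i
        have := hτ0 j
        field_simp
      rw [h6]
      have h7 : 0 < (-τ i) * τ j := mul_pos (neg_pos.2 h1') h2'
      exact (one_le_inv₀ h7).2 h5
  have hnorm : ‖S2 (a : ℂ) W‖ = (∑ j, v j) ^ 2 + 3 * ∑ j, v j ^ 2 := by
    rw [hS2]
    simp_rw [hu]
    have e1 : (∑ j, (v j : ℂ) * η⁻¹) ^ 2 + 3 * ∑ j, ((v j : ℂ) * η⁻¹) ^ 2 =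
        (((∑ j, v j) ^ 2 + 3 * ∑ j, v j ^ 2 : ℝ) : ℂ) * (η⁻¹) ^ 2 := by
      push_cast
      rw [← Finset.sum_mul, mul_pow]
      simp_rw [mul_pow]
      rw [← Finset.sum_mul]
      ring
    rw [e1, norm_mul, norm_pow, norm_inv, hηn, inv_one, one_pow, mul_one, Complex.norm_real]
    apply Real.norm_of_nonneg
    have : 0 ≤ ∑ j, v j ^ 2 := Finset.sum_nonneg fun j _ => sq_nonneg _
    positivity
  have := second (a : ℂ) W
  rw [hnorm] at this
  linarith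

end Pool.Agent.R552.PM
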