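import Mathlib
import Pool.Agent.R552.PM.Main

/-! The power mean of order `-2` for small `a`. -/

set_option autoImplicit false
set_option maxHeartbeats 400000

open Polynomial ComplexConjugate

noncomputable section

namespace Pool.Agent.R552.PM

lemma weier_gen {ι : Type} (s : Finset ι) (x : ι → ℝ) (h : ∀ i, 1 ≤ x i) :
    ∑ i ∈ s, (x i - 1) ≤ ∏ i ∈ s, x i - 1 ∧ 1 ≤ ∏ i ∈ s, x i := by
  classical
  induction s using Finset.induction_on with
  | empty => simp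
  | insert i s hi ih =>
    rw [Finset.sum_insert hi, Finset.prod_insert hi]
    obtain ⟨h1, h2⟩ := ih
    have h3 := h i
    constructor
    · nlinarith [mul_nonneg (sub_nonneg.2 h3) (sub_nonneg.2 h2)]
    · nlinarith

variable {m : ℕ}

theorem small_a (hm1 : 1 ≤ m) {a : ℝ} (ha0 : 0 ≤ a) (ha1 : a ≤ 1) {z : Fin m → ℂ}
    (hz : ∀ j, ‖z j‖ ≤ 1) (hcond : (1 + a) ^ (2 * m) ≤ ((m : ℝ) + 1) ^ 2 * (1 + m * a))
    (hr : (a : ℂ) ∉ (derivative ((X - C (a : ℂ)) * P (ms z))).roots) :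
    (m : ℝ) ≤ A2 (a : ℂ) (derivative ((X - C (a : ℂ)) * P (ms z))).roots := by
  obtain ⟨hne, hcard, hS1, hS2, hprod⟩ := basics hr
  set W := (derivative ((X - C (a : ℂ)) * P (ms z))).roots with hW
  rcases le_or_gt 1 ((m + 1) * ∏ j, ‖((a : ℂ) - z j)⁻¹‖) with h | h
  · exact hprod h
  have hC := fun j => constr (hz j) (hne j)
  have hR := fun j => rge ha0 (hz j) (hne j)
  have hm0 : (0 : ℝ) < m := by exact_mod_cast hm1
  set r : Fin m → ℝ := fun j => ‖((a : ℂ) - z j)⁻¹‖ with hrd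
  have hr0 : ∀ j, 0 ≤ r j := fun j => norm_nonneg _
  have hpr0 : 0 ≤ ∏ j, r j := Finset.prod_nonneg fun j _ => hr0 j
  set y := 1 + a with hy
  have hy1 : 1 ≤ y := by linarith
  have hy0 : 0 < y := by linarith
  have hpr : ∏ j, r j ≤ 1 / (m + 1) := by
    rw [le_div_iff₀ (by positivity)]
    rw [mul_comm]
    exact h.le
  have hsq : ∀ j, 1 ≤ (y * r j) ^ 2 := fun j => by
    have := hR j
    nlinarith
  have hw := (weier_gen Finset.univ (fun j => (y * r j) ^ 2) hsq).1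
  have hpp : ∏ j, (y * r j) ^ 2 = y ^ (2 * m) * (∏ j, r j) ^ 2 := by
    rw [Finset.prod_pow, Finset.prod_mul_distrib, Finset.prod_const, Finset.card_univ,
      Fintype.card_fin, mul_pow, ← pow_mul, mul_comm m 2]
  have hpb : ∏ j, (y * r j) ^ 2 ≤ 1 + m * a := by
    rw [hpp]
    have h1 : (∏ j, r j) ^ 2 ≤ (1 / ((m : ℝ) + 1)) ^ 2 := pow_le_pow_left₀ hpr0 hpr 2
    calc y ^ (2 * m) * (∏ j, r j) ^ 2
        ≤ (((m : ℝ) + 1) ^ 2 * (1 + m * a)) * (1 / ((m : ℝ) + 1)) ^ 2 :=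
          mul_le_mul hcond h1 (by positivity) (by positivity)
      _ = 1 + m * a := by field_simp
  have hsum : ∑ j, (y * r j) ^ 2 ≤ m * y := by
    have h1 : ∑ j, ((y * r j) ^ 2 - 1) = ∑ j, (y * r j) ^ 2 - m := by
      rw [Finset.sum_sub_distrib]; simp
    rw [h1] at hw
    rw [hy]
    linarith
  have hT : y * ∑ j, r j ^ 2 ≤ m := by
    have h1 : ∑ j, (y * r j) ^ 2 = y * (y * ∑ j, r j ^ 2) := by
      rw [← mul_assoc, Finset.mul_sum]
      exact Finset.sum_congr rfl fun j _ => by ring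
    rw [h1, mul_comm (m : ℝ) y] at hsum
    exact le_of_mul_le_mul_left hsum hy0
  have hCs : (m : ℝ) ≤ (1 - a ^ 2) * ∑ j, r j ^ 2 + 2 * a * ∑ j, (((a : ℂ) - z j)⁻¹).re := by
    have h1 : ∑ _j : Fin m, (1 : ℝ) ≤ ∑ j, ((1 - a ^ 2) * r j ^ 2 +
        2 * a * (((a : ℂ) - z j)⁻¹).re) := Finset.sum_le_sum fun j _ => hC j
    rw [Finset.sum_add_distrib, ← Finset.mul_sum, ← Finset.mul_sum] at h1
    simpa using h1
  have ha : 0 < a := by
    rcases ha0.lt_or_eq with h1 | h1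
    · exact h1
    · exfalso
      have hr1 : ∀ j, 1 ≤ r j := by
        intro j
        have h3 := hR j
        have h4 : y = 1 := by rw [hy, ← h1, add_zero]
        rw [h4, one_mul] at h3
        exact h3
      have h2 : 1 ≤ ∏ j, r j := by
        have := Finset.prod_le_prod (s := Finset.univ) (f := fun _ : Fin m => (1 : ℝ)) (g := r)
          (fun _ _ => zero_le_one) (fun j _ => hr1 j)
        simpa using this
      nlinarith
  have hre : (m : ℝ) / 2 ≤ ∑ j, (((a : ℂ) - z j)⁻¹).re := by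
    have h1 : (1 - a ^ 2) * ∑ j, r j ^ 2 = (1 - a) * (y * ∑ j, r j ^ 2) := by rw [hy]; ring
    have h2 : (1 - a) * (y * ∑ j, r j ^ 2) ≤ (1 - a) * m :=
      mul_le_mul_of_nonneg_left hT (by linarith)
    rw [h1] at hCs
    have h3 : a * ((m : ℝ) / 2) ≤ a * ∑ j, (((a : ℂ) - z j)⁻¹).re := by nlinarith
    exact le_of_mul_le_mul_left h3 ha
  have h2 : (Multiset.card W : ℝ) ≤ A2 (a : ℂ) W := by
    apply first (by omega)
    rw [hcard, hS1, norm_mul, Complex.norm_ofNat]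
    have := Complex.re_le_norm (∑ j, ((a : ℂ) - z j)⁻¹)
    rw [Complex.re_sum] at this
    linarith
  rwa [hcard] at h2

/-- all cases -/
theorem main (m : ℕ) (hm1 : 1 ≤ m) (a : ℝ) (ha0 : 0 ≤ a) (ha1 : a ≤ 1) (z : Fin m → ℂ)
    (hz : ∀ j, ‖z j‖ ≤ 1)
    (h : m ≤ 4 ∨ (1 + a) ^ (2 * m) ≤ ((m : ℝ) + 1) ^ 2 * (1 + m * a) ∨
      ∃ ζ : ℂ, ∀ j, ∃ t : ℝ, z j = a + t * ζ) :
    ((a : ℂ) ∈ (derivative ((X - C (a : ℂ)) * ∏ j, (X - C (z j)))).roots) ∨
      (m : ℝ) ≤ (((derivative ((X - C (a : ℂ)) * ∏ j, (X - C (z j)))).roots).map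
          (fun w : ℂ => (‖w - (a : ℂ)‖ ^ 2)⁻¹)).sum := by
  rw [← P_ms]
  by_cases hr : (a : ℂ) ∈ (derivative ((X - C (a : ℂ)) * P (ms z))).roots
  · exact Or.inl hr
  · right
    rcases h with h | h | h
    · exact small hm1 h ha0 ha1 hz hr
    · exact small_a hm1 ha0 ha1 hz h hr
    · exact col hm1 ha0 ha1 hz h hr

end Pool.Agent.R552.PM
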